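import Pool.Agent.W2helper89.MC.Stm

/-! Project MC: assembly. -/

set_option autoImplicit false

universe u

namespace Pool.Agent.W2helper89.MC

open Pool.Agent.Helper743 (TR RecT join pre TR_join_left TR_join_right TR_join)
open Pool.Agent.Helper425.PA

theorem main_of (hS : P_SPEC) (hC : P_CONE) (hT : P_TRANS.{u}) (hF : P_FULL.{u}) (hSim : P_SIM.{u})
    (hD : P_DOWN.{u}) (hG : P_GRAPH.{u}) (hU : P_UP.{u}) (hCod : P_COD.{u})
    (M : Type u) [CommSemiring M] [LinearOrder M] [PeanoModel M] [Countable M] :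
    ∃ c : Degree M, ∀ b, c ≤ b → ∃ a, a ⋖ b := by
  have hne : Nonempty M := ⟨0⟩
  obtain ⟨x, hx⟩ := exists_surjective_nat M
  obtain ⟨e, he⟩ := hF M x hx
  obtain ⟨c₀, hec, hcone⟩ := hC hS e
  obtain ⟨C, hC1, hC2, -⟩ := hCod M x hx e he c₀ hec
  refine ⟨deg C, fun b hb => ?_⟩
  obtain ⟨B, rfl⟩ := exists_rep b
  rw [deg_le] at hb
  have hB1 : CEin B (Px x) := hT M C B _ hC1 hb
  have hB2 : CEin B (Gr M c₀) := hT M C B _ hC2 hb
  obtain ⟨a, hea, hab, hba, hmin⟩ := hcone (join (sh x B) e) (hG M x hx e he B c₀ hB2)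
  obtain ⟨A, hA1, hA2, hA3⟩ := hCod M x hx e he a hea
  have hBe : CEin B (Gr M e) := hSim M B e c₀ hec hB2
  have hAe : CEin A (Gr M e) := hSim M A e a hea hA2
  have hAB : TRed A B := hU hSim M x hx e A B hB1 hBe (hA3.trans hab)
  have hBA : ¬ TRed B A := by
    intro h
    have h1 := hD M x hx e he B A h
    refine hba (TR_join (h1.trans (TR_join hA3 hea)) hea)
  refine ⟨deg A, ⟨lt_of_le_not_ge (deg_le.2 hAB) (fun h => hBA (deg_le.1 h)), ?_⟩⟩
  intro d h1 h2
  obtain ⟨D, rfl⟩ := exists_rep d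
  have hAD : TRed A D := deg_le.1 h1.le
  have hDB : TRed D B := deg_le.1 h2.le
  have hDa : CEin D (Gr M a) := hT M A D _ hA2 hAD
  have h3 : TR a (join (sh x D) e) := hG M x hx e he D a hDa
  have h4 : TR (join (sh x D) e) (join (sh x B) e) :=
    TR_join (hD M x hx e he D B hDB) (TR_join_right _ _)
  rcases hmin _ h3 h4 with h | h
  · refine absurd h1 (not_lt_of_ge (deg_le.2 ?_))
    exact hU hSim M x hx e D A hA1 hAe
      (((TR_join_left _ _).trans h).trans (hG M x hx e he A a hA2))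
  · refine absurd h2 (not_lt_of_ge (deg_le.2 ?_))
    exact hU hSim M x hx e B D (hT M A D _ hA1 hAD) (hSim M D e a hea hDa)
      ((TR_join_left _ _).trans h)

end Pool.Agent.W2helper89.MC
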