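import Pool.Agent.W2helper89.MC.Sp

/-!
Project MC: SPEC1, SPEC2 (computing along a branch).
-/

set_option autoImplicit false

namespace Pool.Agent.W2helper89.MC

open Pool.Agent.Helper743
open Pool.Agent.H246 (IsFn Hal)

lemma hal_of_on {ev : List ℕ → ℕ → Option ℕ} {a g : ℕ → ℕ} {σ : List ℕ} (h : σ = pre g σ.length)
    {x u : ℕ} (hu : ev (jl a σ) x = some u) : Hal ev (join a g) x u := by
  rw [h, jl_pre] at hu
  exact ⟨_, hu⟩

lemma recT_pred {O : Set (ℕ →. ℕ)} {f : ℕ → ℕ} (hf : RecT O f) : RecT O (fun n => f n - 1) :=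
  RecT.c (f := fun n => n - 1) (Primrec.nat_sub.comp Primrec.id (Primrec.const 1)).to_comp hf

theorem p_ns : P_NS := by
  classical
  intro a T ev hT hev hns g hg d hd
  let O : Set (ℕ →. ℕ) := {(a : ℕ →. ℕ)}
  have ha : RecT O a := TR.refl a
  let A : ℕ → ℕ := fun z => Encodable.encode (ev (jl a (T z.unpair.2)) z.unpair.1)
  have hA : RecT O A := by
    have e1 := recT_jl ha (hT.rcc (RecT.u2 (O := O) RecT.id'))
    have := recT_ev hev.1 e1 (RecT.u1 (O := O) RecT.id')
    refine Nat.RecursiveIn.of_eq this ?_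
    intro n; simp [A]
  have hC : RecT O (fun z => if A z = 0 then 1 else 0) :=
    Pool.Agent.H246.RecT.ite_eq hA (RecT.const 1) (RecT.const 0) 0
  have hex : ∀ x, ∃ n, (fun z => if A z = 0 then 1 else 0) (Nat.pair x n) = 0 := by
    intro x
    obtain ⟨k, hk⟩ := hd x
    obtain ⟨n, h1, h2⟩ := hg k
    refine ⟨n, ?_⟩
    have h3 : ev (jl a (T n)) x = some (d x) := by
      rw [h2, jl_pre]
      exact hev.2 _ _ _ _ (pre_prefix _ h1) hk
    simp [A, h3]
  have hF := RecT.find hC hex
  have hv := recT_pred (hA.comp (RecT.pair (RecT.id' (O := O)) hF))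
  refine Nat.RecursiveIn.of_eq hv ?_
  intro x
  congr 1
  have h1 := Nat.find_spec (hex x)
  simp only at h1
  change A (Nat.pair x (Nat.find (hex x))) - 1 = d x
  generalize Nat.find (hex x) = m at h1 ⊢
  simp only [A, Nat.unpair_pair] at h1 ⊢
  cases h2 : ev (jl a (T m)) x with
  | none => rw [h2] at h1; simp at h1
  | some u =>
    obtain ⟨k, hk⟩ := hd x
    obtain ⟨n, h3, h4⟩ := hg k
    have h5 : ev (jl a (T n)) x = some (d x) := by
      rw [h4, jl_pre]
      exact hev.2 _ _ _ _ (pre_prefix _ h3) hk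
    have h6 := hns m n x u (d x) h2 h5
    simp [h6]

/-- the order of the nodes -/
inductive Anc : ℕ → ℕ → Prop
  | refl (q : ℕ) : Anc q q
  | lf {q m : ℕ} : Anc q m → Anc q (2 * m + 1)
  | rt {q m : ℕ} : Anc q m → Anc q (2 * m + 2)

lemma Anc.zero (m : ℕ) : Anc 0 m := by
  induction m using Nat.strong_induction_on with
  | _ n ih =>
    rcases Nat.eq_zero_or_pos n with h0 | h0
    · subst h0; exact Anc.refl 0
    · rcases Nat.even_or_odd' n with ⟨k, hk | hk⟩
      · have h1 : n = 2 * (k - 1) + 2 := by omega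
        rw [h1]
        exact (ih (k - 1) (by omega)).rt
      · rw [hk]
        exact (ih k (by omega)).lf

lemma Anc.cases {q m : ℕ} (h : Anc q m) : q = m ∨ Anc (2 * q + 1) m ∨ Anc (2 * q + 2) m := by
  induction h with
  | refl => exact Or.inl rfl
  | lf _ ih =>
    rcases ih with h | h | h
    · subst h; exact Or.inr (Or.inl (Anc.refl _))
    · exact Or.inr (Or.inl h.lf)
    · exact Or.inr (Or.inr h.lf)
  | rt _ ih =>
    rcases ih with h | h | h
    · subst h; exact Or.inr (Or.inr (Anc.refl _))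
    · exact Or.inr (Or.inl h.rt)
    · exact Or.inr (Or.inr h.rt)

lemma Anc.tri (q m : ℕ) : Anc q m ∨ Anc m q ∨ ∃ r, (Anc (2 * r + 1) q ∧ Anc (2 * r + 2) m) ∨
    (Anc (2 * r + 2) q ∧ Anc (2 * r + 1) m) := by
  induction m using Nat.strong_induction_on with
  | _ n ih =>
    rcases Nat.eq_zero_or_pos n with h0 | h0
    · subst h0; exact Or.inr (Or.inl (Anc.zero q))
    · rcases Nat.even_or_odd' n with ⟨k, hk | hk⟩
      · have h1 : n = 2 * (k - 1) + 2 := by omega
        rw [h1]
        rcases ih (k - 1) (by omega) with h | h | ⟨r, h | h⟩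
        · exact Or.inl h.rt
        · rcases h.cases with h | h | h
          · rw [← h]; exact Or.inl (Anc.refl _).rt
          · exact Or.inr (Or.inr ⟨_, Or.inl ⟨h, Anc.refl _⟩⟩)
          · exact Or.inr (Or.inl h)
        · exact Or.inr (Or.inr ⟨r, Or.inl ⟨h.1, h.2.rt⟩⟩)
        · exact Or.inr (Or.inr ⟨r, Or.inr ⟨h.1, h.2.rt⟩⟩)
      · rw [hk]
        rcases ih k (by omega) with h | h | ⟨r, h | h⟩
        · exact Or.inl h.lf
        · rcases h.cases with h | h | h
          · rw [← h]; exact Or.inl (Anc.refl _).lf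
          · exact Or.inr (Or.inl h)
          · exact Or.inr (Or.inr ⟨_, Or.inr ⟨h, Anc.refl _⟩⟩)
        · exact Or.inr (Or.inr ⟨r, Or.inl ⟨h.1, h.2.lf⟩⟩)
        · exact Or.inr (Or.inr ⟨r, Or.inr ⟨h.1, h.2.lf⟩⟩)

lemma Anc.pre {a : ℕ → ℕ} {T : ℕ → List ℕ} (hT : PT a T) {q m : ℕ} (h : Anc q m) :
    T q <+: T m := by
  induction h with
  | refl => exact List.prefix_rfl
  | lf _ ih => exact ih.trans (hT.lf _)
  | rt _ ih => exact ih.trans (hT.rt _)

lemma on_of_prefix {g : ℕ → ℕ} {σ : List ℕ} {n : ℕ} (h : σ <+: Pool.Agent.Helper743.pre g n) :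
    σ = Pool.Agent.Helper743.pre g σ.length := by
  have h1 : σ.length ≤ n := by simpa using h.length_le
  rcases List.prefix_or_prefix_of_prefix h (pre_prefix g h1) with h2 | h2
  · exact h2.eq_of_length (by simp)
  · exact (h2.eq_of_length (by simp)).symm

lemma on_child {a : ℕ → ℕ} {T : ℕ → List ℕ} (hT : PT a T) {g : ℕ → ℕ} (hg : Br T g) {q : ℕ}
    (hq : T q = pre g (T q).length) :
    T (2 * q + 1) = pre g (T (2 * q + 1)).length ∨ T (2 * q + 2) = pre g (T (2 * q + 2)).length := by
  obtain ⟨m, h1, h2⟩ := hg ((T q).length + 1)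
  rcases Anc.tri q m with h | h | ⟨r, h⟩
  · rcases h.cases with h | h | h
    · subst h; omega
    · left
      have h3 := Anc.pre hT h
      rw [h2] at h3
      exact on_of_prefix h3
    · right
      have h3 := Anc.pre hT h
      rw [h2] at h3
      exact on_of_prefix h3
  · have := (Anc.pre hT h).length_le
    omega
  · exfalso
    have hqm : T q <+: T m := by
      rw [hq, h2]
      exact pre_prefix g (by omega)
    rcases h with ⟨h3, h4⟩ | ⟨h3, h4⟩
    · rcases List.prefix_or_prefix_of_prefix ((Anc.pre hT h3).trans hqm) (Anc.pre hT h4) with h5 | h5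
      · exact (hT.inc r).1 h5
      · exact (hT.inc r).2 h5
    · rcases List.prefix_or_prefix_of_prefix ((Anc.pre hT h3).trans hqm) (Anc.pre hT h4) with h5 | h5
      · exact (hT.inc r).2 h5
      · exact (hT.inc r).1 h5

theorem p_sp : P_SP := by
  classical
  intro a T ev hT hev hsp g hg d hd
  let O : Set (ℕ →. ℕ) := {((join a d : ℕ → ℕ) : ℕ →. ℕ)}
  have ha : RecT O a := TR_join_left a d
  have hdO : RecT O d := TR_join_right a d
  have hTc : ∀ s : ℕ → ℕ, RecT O s → RecT O (fun n => Encodable.encode (T (s n))) := by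
    intro s hs
    exact (TR.of_recT (f := fun n => Encodable.encode (T n)) hT.rc ha).comp hs
  have hlf : RecT O (fun q => 2 * q + 1) :=
    Computable.recT (Primrec.succ.comp (Primrec.nat_mul.comp (Primrec.const 2) Primrec.id)).to_comp
  have hrt : RecT O (fun q => 2 * q + 2) :=
    Computable.recT (Primrec.succ.comp (Primrec.succ.comp
      (Primrec.nat_mul.comp (Primrec.const 2) Primrec.id))).to_comp
  -- z = pair q x
  let A1 : ℕ → ℕ := fun z => Encodable.encode (ev (jl a (T (2 * z.unpair.1 + 1))) z.unpair.2)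
  let A2 : ℕ → ℕ := fun z => Encodable.encode (ev (jl a (T (2 * z.unpair.1 + 2))) z.unpair.2)
  have hA1 : RecT O A1 := by
    have e1 := recT_jl ha (hTc _ (hlf.comp (RecT.u1 (O := O) RecT.id')))
    have := recT_ev hev.1 e1 (RecT.u2 (O := O) RecT.id')
    refine Nat.RecursiveIn.of_eq this ?_
    intro n; simp [A1]
  have hA2 : RecT O A2 := by
    have e1 := recT_jl ha (hTc _ (hrt.comp (RecT.u1 (O := O) RecT.id')))
    have := recT_ev hev.1 e1 (RecT.u2 (O := O) RecT.id')
    refine Nat.RecursiveIn.of_eq this ?_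
    intro n; simp [A2]
  let K : ℕ → ℕ := fun z => if z.unpair.1 = 0 then 1 else
    (if z.unpair.2 = 0 then 1 else (if z.unpair.1 = z.unpair.2 then 1 else 0))
  have p1 : Primrec (fun z : ℕ => z.unpair.1) := Primrec.fst.comp Primrec.unpair
  have p2 : Primrec (fun z : ℕ => z.unpair.2) := Primrec.snd.comp Primrec.unpair
  have hK : Computable K := by
    have : Primrec K := Primrec.ite (Primrec.eq.comp p1 (Primrec.const 0)) (Primrec.const 1)
      (Primrec.ite (Primrec.eq.comp p2 (Primrec.const 0)) (Primrec.const 1)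
        (Primrec.ite (Primrec.eq.comp p1 p2) (Primrec.const 1) (Primrec.const 0)))
    exact this.to_comp
  let C : ℕ → ℕ := fun z => K (Nat.pair (A1 z) (A2 z))
  have hC : RecT O C := RecT.c hK (RecT.pair hA1 hA2)
  have hCz : ∀ q x, C (Nat.pair q x) = 0 ↔ ∃ u v, ev (jl a (T (2 * q + 1))) x = some u ∧
      ev (jl a (T (2 * q + 2))) x = some v ∧ u ≠ v := by
    intro q x
    simp only [C, K, A1, A2, Nat.unpair_pair]
    cases h1 : ev (jl a (T (2 * q + 1))) x with
    | none => simp
    | some u =>
      cases h2 : ev (jl a (T (2 * q + 2))) x with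
      | none => simp
      | some v => simp
  have hex : ∀ q, ∃ t, C (Nat.pair q t) = 0 := by
    intro q
    obtain ⟨x, u, v, h1, h2, h3⟩ := hsp q
    exact ⟨x, (hCz q x).2 ⟨u, v, h1, h2, h3⟩⟩
  have hF := RecT.find hC hex
  have hFs : ∀ q, C (Nat.pair q (Nat.find (hex q))) = 0 := fun q => Nat.find_spec (hex q)
  -- next node
  let N : ℕ → ℕ := fun q => if A1 (Nat.pair q (Nat.find (hex q))) = d (Nat.find (hex q)) + 1
    then 2 * q + 1 else 2 * q + 2
  have hN : RecT O N := by
    have e1 : RecT O (fun q => A1 (Nat.pair q (Nat.find (hex q)))) :=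
      hA1.comp (RecT.pair RecT.id' hF)
    have e2 : RecT O (fun q => d (Nat.find (hex q)) + 1) :=
      RecT.c (f := fun n => n + 1) Computable.succ (hdO.comp hF)
    have h1 : Computable (fun z : ℕ => if z.unpair.1 = z.unpair.2.unpair.1 then
        2 * z.unpair.2.unpair.2 + 1 else 2 * z.unpair.2.unpair.2 + 2) := by
      have h22 : Primrec (fun z : ℕ => 2 * z.unpair.2.unpair.2) :=
        Primrec.nat_mul.comp (Primrec.const 2) (p2.comp p2)
      have : Primrec (fun z : ℕ => if z.unpair.1 = z.unpair.2.unpair.1 then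
        2 * z.unpair.2.unpair.2 + 1 else 2 * z.unpair.2.unpair.2 + 2) :=
        Primrec.ite (Primrec.eq.comp p1 (p1.comp p2)) (Primrec.succ.comp h22)
          (Primrec.succ.comp (Primrec.succ.comp h22))
      exact this.to_comp
    have := RecT.c h1 (RecT.pair e1 (RecT.pair e2 (RecT.id' (O := O))))
    refine Nat.RecursiveIn.of_eq this ?_
    intro n
    simp [N]
  let nd : ℕ → ℕ := fun k => Nat.rec 0 (fun _ q => N q) k
  have hnd : RecT O nd := by
    have h3 := RecT.prec (RecT.const (O := O) 0) (hN.comp (RecT.u2 (RecT.u2 (O := O) RecT.id')))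
    have h4 := h3.comp (RecT.pair (RecT.const (O := O) 0) RecT.id')
    refine Nat.RecursiveIn.of_eq h4 ?_
    intro n
    simp [nd]
  have hon : ∀ k, T (nd k) = pre g (T (nd k)).length := by
    intro k
    induction k with
    | zero =>
      obtain ⟨n, h1, h2⟩ := hg 0
      have h3 := hT.root n
      rw [h2] at h3
      exact on_of_prefix h3
    | succ k ih =>
      change T (N (nd k)) = pre g (T (N (nd k))).length
      obtain ⟨u, v, h1, h2, h3⟩ := (hCz (nd k) _).1 (hFs (nd k))
      generalize hx : Nat.find (hex (nd k)) = x at h1 h2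
      have hNv : N (nd k) = if u = d x then 2 * nd k + 1 else 2 * nd k + 2 := by
        simp only [N, A1, Nat.unpair_pair, hx, h1, Encodable.encode_some, Encodable.encode_nat]
        by_cases huu : u = d x <;> simp [huu]
      rw [hNv]
      by_cases hu : u = d x
      · rw [if_pos hu]
        rcases on_child hT hg ih with h4 | h4
        · exact h4
        · exfalso
          have := Pool.Agent.H246.Hal.unique hev (hal_of_on h4 h2) (hd x)
          exact h3 (by rw [hu, this])
      · rw [if_neg hu]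
        rcases on_child hT hg ih with h4 | h4
        · exfalso
          exact hu (Pool.Agent.H246.Hal.unique hev (hal_of_on h4 h1) (hd x))
        · exact h4
  have hlen : ∀ k, k ≤ (T (nd k)).length := by
    intro k
    induction k with
    | zero => exact Nat.zero_le _
    | succ k ih =>
      change k + 1 ≤ (T (N (nd k))).length
      have : N (nd k) = 2 * nd k + 1 ∨ N (nd k) = 2 * nd k + 2 := by
        simp only [N]
        split_ifs
        · exact Or.inl rfl
        · exact Or.inr rfl
      rcases this with h | h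
      · rw [h]; exact lt_of_le_of_lt ih (hT.len_lf _)
      · rw [h]; exact lt_of_le_of_lt ih (hT.len_rt _)
  have hfin := RecT.get (hTc _ (hnd.comp (Computable.recT (O := O) Computable.succ)))
    (RecT.id' (O := O))
  refine Nat.RecursiveIn.of_eq hfin ?_
  intro i
  congr 1
  simp only [dl_encode]
  rw [hon (i + 1)]
  have := hlen (i + 1)
  simp only [List.getD_eq_getElem?_getD, pre_getElem?]
  rw [if_pos (by omega)]
  rfl

end Pool.Agent.W2helper89.MC
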