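import Pool.Agent.W2helper89.MC.Sp

/-!
Project MC: SPEC5 (fusion).
-/

set_option autoImplicit false

namespace Pool.Agent.W2helper89.MC

open Pool.Agent.Helper743
open Pool.Agent.H246 (IsFn Hal)

/-- the full binary tree -/
lemma full_tree (a : ℕ → ℕ) : ∃ T, PT a T := by
  have hL : RecT {(a : ℕ →. ℕ)} (fun c => Encodable.encode (dl c ++ [0])) :=
    RecT.app RecT.id' (RecT.const 0)
  have hR : RecT {(a : ℕ →. ℕ)} (fun c => Encodable.encode (dl c ++ [1])) :=
    RecT.app RecT.id' (RecT.const 1)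
  obtain ⟨s, hs, -, sl, sr⟩ := heap hL hR
  refine ⟨fun n => dl (s 0 n), ?_, ?_, ?_, ?_⟩
  · have h1 : Computable (fun c : ℕ => Encodable.encode (dl c)) := Computable.encode.comp comp_dl
    have := RecT.c h1 (hs.comp (RecT.pair (RecT.const 0) RecT.id'))
    refine Nat.RecursiveIn.of_eq this ?_
    intro n; simp
  · intro n
    simp only [sl, dl_encode]
    exact List.prefix_append _ _
  · intro n
    simp only [sr, dl_encode]
    exact List.prefix_append _ _
  · intro n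
    simp only [sl, sr, dl_encode]
    constructor
    · intro h
      have := h.eq_of_length (by simp)
      simp at this
    · intro h
      have := h.eq_of_length (by simp)
      simp at this

theorem p_fus : P_FUS := by
  classical
  intro hNS hSP hEX hDG a
  -- enumerations
  have c1 : {ev | IsFn ev}.Countable := Pool.Agent.H246.countable_fn
  have n1 : {ev | IsFn ev}.Nonempty := ⟨fun _ _ => none, Computable.const _, by simp⟩
  obtain ⟨E, hE⟩ := c1.exists_eq_range n1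
  have c2 : {C : ℕ → ℕ | TR C a}.Countable := Pool.Agent.H246.countable_TR a
  obtain ⟨F, hF⟩ := c2.exists_eq_range ⟨a, TR.refl a⟩
  have hEk : ∀ k, IsFn (E k) := fun k => by
    have : E k ∈ {ev | IsFn ev} := by rw [hE]; exact ⟨k, rfl⟩
    exact this
  -- one step
  have step : ∀ (k : ℕ) (T : {T : ℕ → List ℕ // PT a T}), ∃ T' : {T : ℕ → List ℕ // PT a T},
      (T.1 0 <+: T'.1 0 ∧ (T.1 0).length < (T'.1 0).length ∧ (∃ s : ℕ → ℕ, ∀ n, T'.1 n = T.1 (s n)) ∧
      (NSp (E k) a T'.1 ∨ Spl (E k) a T'.1) ∧ ¬ Br T'.1 (F k)) := by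
    intro k T
    obtain ⟨s, h1, h2, h3, h4⟩ := hDG a T.1 (F k) T.2
    obtain ⟨s', h5, h6, h7⟩ := hEX a _ (E k) h1 (hEk k)
    refine ⟨⟨_, h5⟩, h2.trans h6, lt_of_lt_of_le h3 h6.length_le, ⟨fun n => s (s' n), fun _ => rfl⟩,
      h7, ?_⟩
    intro hbr
    apply h4
    intro L
    obtain ⟨n, hn⟩ := hbr L
    exact ⟨s' n, hn⟩
  choose nx hnx using step
  obtain ⟨T0, hT0⟩ := full_tree a
  let Tk : ℕ → {T : ℕ → List ℕ // PT a T} := fun k => Nat.rec ⟨T0, hT0⟩ (fun j T => nx j T) k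
  have hTk : ∀ k, Tk (k + 1) = nx k (Tk k) := fun k => rfl
  have r1 : ∀ k, (Tk k).1 0 <+: (Tk (k + 1)).1 0 := fun k => (hnx k (Tk k)).1
  have r2 : ∀ k, ((Tk k).1 0).length < ((Tk (k + 1)).1 0).length := fun k => (hnx k (Tk k)).2.1
  have r3 : ∀ k, ∃ s : ℕ → ℕ, ∀ n, (Tk (k + 1)).1 n = (Tk k).1 (s n) :=
    fun k => (hnx k (Tk k)).2.2.1
  have r1' : ∀ k j, (Tk k).1 0 <+: (Tk (k + j)).1 0 := by
    intro k j
    induction j with
    | zero => exact List.prefix_rfl
    | succ j ih => exact ih.trans (r1 (k + j))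
  have r2' : ∀ k, k ≤ ((Tk k).1 0).length := by
    intro k
    induction k with
    | zero => exact Nat.zero_le _
    | succ k ih => exact lt_of_le_of_lt ih (r2 k)
  have r3' : ∀ k j, ∃ s : ℕ → ℕ, ∀ n, (Tk (k + j)).1 n = (Tk k).1 (s n) := by
    intro k j
    induction j with
    | zero => exact ⟨id, fun _ => rfl⟩
    | succ j ih =>
      obtain ⟨s, hs⟩ := ih
      obtain ⟨t, ht⟩ := r3 (k + j)
      refine ⟨fun n => s (t n), fun n => ?_⟩
      rw [← hs, ← ht]; rfl
  let g : ℕ → ℕ := fun i => ((Tk (i + 1)).1 0).getD i 0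
  have hg : ∀ k, (Tk k).1 0 = pre g ((Tk k).1 0).length := by
    intro k
    apply pre_eq_of_prefix
    intro i hi
    have e1 : ((Tk k).1 0)[i] = ((Tk k).1 0).getD i 0 := by
      rw [List.getD_eq_getElem _ _ hi]
    rw [e1]
    change ((Tk k).1 0).getD i 0 = ((Tk (i + 1)).1 0).getD i 0
    have hi2 : i < ((Tk (i + 1)).1 0).length := r2' (i + 1)
    rcases le_total k (i + 1) with hle | hle
    · obtain ⟨j, hj⟩ := Nat.exists_eq_add_of_le hle
      obtain ⟨ρ, hρ⟩ := r1' k j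
      rw [hj, ← hρ, List.getD_append _ _ _ _ hi]
    · obtain ⟨j, hj⟩ := Nat.exists_eq_add_of_le hle
      obtain ⟨ρ, hρ⟩ := r1' (i + 1) j
      rw [hj, ← hρ, List.getD_append _ _ _ _ hi2]
  have hbr : ∀ k, Br (Tk k).1 g := by
    intro k L
    obtain ⟨s, hs⟩ := r3' k L
    refine ⟨s 0, ?_, ?_⟩
    · rw [← hs]
      exact le_trans (by omega) (r2' (k + L))
    · rw [← hs]
      exact hg _
  refine ⟨join a g, TR_join_left a g, ?_, ?_⟩
  · intro h
    have h1 : TR g a := (TR_join_right a g).trans h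
    have h2 : g ∈ {C : ℕ → ℕ | TR C a} := h1
    rw [hF] at h2
    obtain ⟨k, hk⟩ := h2
    have h3 := (hnx k (Tk k)).2.2.2.2
    apply h3
    rw [hk]
    exact hbr (k + 1)
  · intro d hd1 hd2
    obtain ⟨ev, h2, h3, h4⟩ := use_principle _ _ hd2
    have hev : IsFn ev := ⟨h2, h3⟩
    have hH : ∀ x, Hal ev (join a g) x (d x) := fun m => (h4 m (d m)).1 (Part.mem_some _)
    have h5 : ev ∈ {ev | IsFn ev} := hev
    rw [hE] at h5
    obtain ⟨k, hk⟩ := h5
    have h6 := (hnx k (Tk k)).2.2.2.1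
    rw [hk] at h6
    rcases h6 with h6 | h6
    · left
      exact hNS a _ ev (nx k (Tk k)).2 hev h6 g (hbr (k + 1)) d hH
    · right
      have h7 := hSP a _ ev (nx k (Tk k)).2 hev h6 g (hbr (k + 1)) d hH
      exact TR_join hd1 (h7.trans (TR_join hd1 (TR.refl d)))

end Pool.Agent.W2helper89.MC
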