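import Pool.Agent.W2helper89.MC.Br
import Pool.Agent.W2helper89.MC.Fus

/-!
Project MC: Spector's theorem, relativized.
-/

set_option autoImplicit false

namespace Pool.Agent.W2helper89.MC

theorem p_spec : P_SPEC := p_fus p_ns p_sp p_ex p_dg

end Pool.Agent.W2helper89.MC
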