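import Pool.Agent.W2helper89.MC.Asm
import Pool.Agent.W2helper89.MC.Spec
import Pool.Agent.W2helper10.MC.Cone
import Pool.Agent.W2helper52.MC.Sim
import Pool.Agent.W2helper52.MC.Up
import Pool.Agent.W2helper59.MC.Cod
import Pool.Agent.W2helper92.MC.FT
import Pool.Agent.W2helper71.MC.Down

/-! Project MC: the theorem for countable models. -/

set_option autoImplicit false

universe u

namespace Pool.Agent.W2helper89.MC

open Pool.Agent.Helper425.PA

theorem main (M : Type u) [CommSemiring M] [LinearOrder M] [PeanoModel M] [Countable M] :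
    ∃ c : Degree M, ∀ b, c ≤ b → ∃ a, a ⋖ b :=
  main_of p_spec Pool.Agent.W2helper10.MC.p_cone Pool.Agent.W2helper92.MC.p_trans
    Pool.Agent.W2helper92.MC.p_full Pool.Agent.W2helper52.MC.p_sim
    Pool.Agent.W2helper71.MC.p_down Pool.Agent.W2helper71.MC.p_graph
    Pool.Agent.W2helper52.MC.p_up Pool.Agent.W2helper59.MC.p_cod M

end Pool.Agent.W2helper89.MC
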