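import Pool.Agent.W2helper89.MC.Stm

/-!
Project MC, Spector's theorem: statements of the pieces.
Perfect trees are functions `T : ℕ → List ℕ`; the children of the node `n` are `2 n + 1`, `2 n + 2`.
-/

set_option autoImplicit false

namespace Pool.Agent.W2helper89.MC

open Pool.Agent.Helper743 (TR RecT join pre)
open Pool.Agent.H246 (IsFn Hal)

/-- the finite oracle `join a σ` -/
def jl (a : ℕ → ℕ) (σ : List ℕ) : List ℕ := pre (join a (fun i => σ.getD i 0)) σ.length

/-- perfect trees computable in `a` -/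
structure PT (a : ℕ → ℕ) (T : ℕ → List ℕ) : Prop where
  rc : RecT {(a : ℕ →. ℕ)} (fun n => Encodable.encode (T n))
  lf : ∀ n, T n <+: T (2 * n + 1)
  rt : ∀ n, T n <+: T (2 * n + 2)
  inc : ∀ n, ¬ T (2 * n + 1) <+: T (2 * n + 2) ∧ ¬ T (2 * n + 2) <+: T (2 * n + 1)

/-- `g` is a branch of `T` -/
def Br (T : ℕ → List ℕ) (g : ℕ → ℕ) : Prop :=
  ∀ L, ∃ n, L ≤ (T n).length ∧ T n = pre g (T n).length

/-- no two nodes of `T` give different values of the functional -/
def NSp (ev : List ℕ → ℕ → Option ℕ) (a : ℕ → ℕ) (T : ℕ → List ℕ) : Prop :=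
  ∀ n m x u v, ev (jl a (T n)) x = some u → ev (jl a (T m)) x = some v → u = v

/-- the two children of every node give different values of the functional -/
def Spl (ev : List ℕ → ℕ → Option ℕ) (a : ℕ → ℕ) (T : ℕ → List ℕ) : Prop :=
  ∀ n, ∃ x u v, ev (jl a (T (2 * n + 1))) x = some u ∧ ev (jl a (T (2 * n + 2))) x = some v ∧ u ≠ v

/-- (SPEC1) non-splitting tree: the values are computable in `a` (search a node; `cert`) -/
def P_NS : Prop := ∀ (a : ℕ → ℕ) (T : ℕ → List ℕ) (ev : List ℕ → ℕ → Option ℕ), PT a T → IsFn ev →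
  NSp ev a T → ∀ g, Br T g → ∀ d : ℕ → ℕ, (∀ x, Hal ev (join a g) x (d x)) → TR d a

/-- (SPEC2) splitting tree: the branch is computable from the values: at the node `n` on `g` find
`x, u, v` with different values at the two children; `d x` tells the child. -/
def P_SP : Prop := ∀ (a : ℕ → ℕ) (T : ℕ → List ℕ) (ev : List ℕ → ℕ → Option ℕ), PT a T → IsFn ev →
  Spl ev a T → ∀ g, Br T g → ∀ d : ℕ → ℕ, (∀ x, Hal ev (join a g) x (d x)) → TR g (join a d)

/-- (SPEC3) every tree has a subtree which is non-splitting or splitting -/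
def P_EX : Prop := ∀ (a : ℕ → ℕ) (T : ℕ → List ℕ) (ev : List ℕ → ℕ → Option ℕ), PT a T → IsFn ev →
  ∃ s : ℕ → ℕ, PT a (fun n => T (s n)) ∧ T 0 <+: T (s 0) ∧
    (NSp ev a (fun n => T (s n)) ∨ Spl ev a (fun n => T (s n)))

/-- (SPEC4) every tree has a subtree which omits a given function, with a longer root -/
def P_DG : Prop := ∀ (a : ℕ → ℕ) (T : ℕ → List ℕ) (f : ℕ → ℕ), PT a T →
  ∃ s : ℕ → ℕ, PT a (fun n => T (s n)) ∧ T 0 <+: T (s 0) ∧ (T 0).length < (T (s 0)).length ∧
    ¬ Br (fun n => T (s n)) f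

/-- (SPEC5) fusion -/
def P_FUS : Prop := P_NS → P_SP → P_EX → P_DG → P_SPEC

end Pool.Agent.W2helper89.MC
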