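import Pool.Agent.W2helper89.MC.Tool

/-!
Project MC: SPEC3, SPEC4, SPEC5 (existence of subtrees, diagonalization, fusion).
-/

set_option autoImplicit false

namespace Pool.Agent.W2helper89.MC

open Pool.Agent.Helper743
open Pool.Agent.H246 (IsFn Hal)

lemma PT.root {a : ℕ → ℕ} {T : ℕ → List ℕ} (h : PT a T) (n : ℕ) : T 0 <+: T n := by
  induction n using Nat.strong_induction_on with
  | _ n ih =>
    rcases Nat.eq_zero_or_pos n with h0 | h0
    · subst h0; exact List.prefix_rfl
    · rcases Nat.even_or_odd' n with ⟨k, hk | hk⟩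
      · have h1 : n = 2 * (k - 1) + 2 := by omega
        rw [h1]
        exact (ih (k - 1) (by omega)).trans (h.rt (k - 1))
      · rw [hk]
        exact (ih k (by omega)).trans (h.lf k)

lemma PT.len_lf {a : ℕ → ℕ} {T : ℕ → List ℕ} (h : PT a T) (n : ℕ) :
    (T n).length < (T (2 * n + 1)).length := by
  refine lt_of_le_of_ne (h.lf n).length_le ?_
  intro he
  have h1 := (h.lf n).eq_of_length he
  apply (h.inc n).1
  rw [← h1]
  exact h.rt n

lemma PT.len_rt {a : ℕ → ℕ} {T : ℕ → List ℕ} (h : PT a T) (n : ℕ) :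
    (T n).length < (T (2 * n + 2)).length := by
  refine lt_of_le_of_ne (h.rt n).length_le ?_
  intro he
  have h1 := (h.rt n).eq_of_length he
  apply (h.inc n).2
  rw [← h1]
  exact h.lf n

/-- the codes of the strings along a computable sequence of nodes -/
lemma PT.rcc {a : ℕ → ℕ} {T : ℕ → List ℕ} (h : PT a T) {s : ℕ → ℕ}
    (hs : RecT {(a : ℕ →. ℕ)} s) : RecT {(a : ℕ →. ℕ)} (fun n => Encodable.encode (T (s n))) :=
  RecT.comp h.rc hs

/-- the shifts -/
lemma shifts (O : Set (ℕ →. ℕ)) : ∃ D : ℕ → ℕ → ℕ, RecT O (fun z => D z.unpair.1 z.unpair.2) ∧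
    (∀ q, D q 0 = q) ∧ (∀ q n, D q (2 * n + 1) = 2 * D q n + 1) ∧
    (∀ q n, D q (2 * n + 2) = 2 * D q n + 2) := by
  have h1 : RecT O (fun q => 2 * q + 1) :=
    Computable.recT (Primrec.succ.comp (Primrec.nat_mul.comp (Primrec.const 2) Primrec.id)).to_comp
  have h2 : RecT O (fun q => 2 * q + 2) :=
    Computable.recT (Primrec.succ.comp (Primrec.succ.comp
      (Primrec.nat_mul.comp (Primrec.const 2) Primrec.id))).to_comp
  exact heap h1 h2

lemma PT.shift {a : ℕ → ℕ} {T : ℕ → List ℕ} (h : PT a T) {D : ℕ → ℕ → ℕ}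
    (hD : RecT {(a : ℕ →. ℕ)} (fun z => D z.unpair.1 z.unpair.2))
    (hl : ∀ q n, D q (2 * n + 1) = 2 * D q n + 1)
    (hr : ∀ q n, D q (2 * n + 2) = 2 * D q n + 2) (q : ℕ) : PT a (fun n => T (D q n)) := by
  refine ⟨?_, ?_, ?_, ?_⟩
  · refine h.rcc ?_
    have := hD.comp (RecT.pair (RecT.const q) RecT.id')
    refine Nat.RecursiveIn.of_eq this ?_
    intro n; simp
  · intro n
    simp only [hl]
    exact h.lf _
  · intro n
    simp only [hr]
    exact h.rt _
  · intro n
    simp only [hl, hr]
    exact h.inc _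

theorem p_ex : P_EX := by
  classical
  intro a T ev hT hev
  obtain ⟨D, hD, h0, hl, hr⟩ := shifts {(a : ℕ →. ℕ)}
  by_cases hA : ∃ q, NSp ev a (fun n => T (D q n))
  · obtain ⟨q, hq⟩ := hA
    refine ⟨D q, hT.shift hD hl hr q, ?_, Or.inl hq⟩
    rw [h0]
    exact hT.root q
  · -- splitting
    have hB : ∀ q, ∃ i j x u v, ev (jl a (T (D q i))) x = some u ∧
        ev (jl a (T (D q j))) x = some v ∧ u ≠ v := by
      intro q
      by_contra hcon
      apply hA
      refine ⟨q, ?_⟩
      intro n m x u v h1 h2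
      by_contra h3
      exact hcon ⟨n, m, x, u, v, h1, h2, h3⟩
    -- the search
    let O : Set (ℕ →. ℕ) := {(a : ℕ →. ℕ)}
    have ha : RecT O a := TR.refl a
    have e1 : ∀ S : ℕ → ℕ, RecT O S → RecT O (fun z => Encodable.encode (jl a (T (S z)))) := by
      intro S hS
      have := recT_jl ha (hT.rcc hS)
      refine Nat.RecursiveIn.of_eq this ?_
      intro n
      simp
    -- input pair q (pair i (pair j x))
    let A1 : ℕ → ℕ := fun z => Encodable.encode (ev (jl a (T (D z.unpair.1 z.unpair.2.unpair.1)))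
      z.unpair.2.unpair.2.unpair.2)
    let A2 : ℕ → ℕ := fun z => Encodable.encode (ev (jl a (T (D z.unpair.1
      z.unpair.2.unpair.2.unpair.1))) z.unpair.2.unpair.2.unpair.2)
    have hA1 : RecT O A1 := by
      have d1 : RecT O (fun z => D z.unpair.1 z.unpair.2.unpair.1) := by
        have := hD.comp (RecT.pair (RecT.u1 (O := O) RecT.id') (RecT.u1 (RecT.u2 RecT.id')))
        refine Nat.RecursiveIn.of_eq this ?_
        intro n; simp
      have := recT_ev hev.1 (e1 _ d1) (RecT.u2 (O := O) (RecT.u2 (RecT.u2 RecT.id')))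
      refine Nat.RecursiveIn.of_eq this ?_
      intro n; simp [A1]
    have hA2 : RecT O A2 := by
      have d1 : RecT O (fun z => D z.unpair.1 z.unpair.2.unpair.2.unpair.1) := by
        have := hD.comp (RecT.pair (RecT.u1 (O := O) RecT.id') (RecT.u1 (RecT.u2 (RecT.u2 RecT.id'))))
        refine Nat.RecursiveIn.of_eq this ?_
        intro n; simp
      have := recT_ev hev.1 (e1 _ d1) (RecT.u2 (O := O) (RecT.u2 (RecT.u2 RecT.id')))
      refine Nat.RecursiveIn.of_eq this ?_
      intro n; simp [A2]
    let K : ℕ → ℕ := fun z => if z.unpair.1 = 0 then 1 else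
      (if z.unpair.2 = 0 then 1 else (if z.unpair.1 = z.unpair.2 then 1 else 0))
    have hK : Computable K := by
      have p1 : Primrec (fun z : ℕ => z.unpair.1) := Primrec.fst.comp Primrec.unpair
      have p2 : Primrec (fun z : ℕ => z.unpair.2) := Primrec.snd.comp Primrec.unpair
      have : Primrec K := Primrec.ite (Primrec.eq.comp p1 (Primrec.const 0)) (Primrec.const 1)
        (Primrec.ite (Primrec.eq.comp p2 (Primrec.const 0)) (Primrec.const 1)
          (Primrec.ite (Primrec.eq.comp p1 p2) (Primrec.const 1) (Primrec.const 0)))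
      exact this.to_comp
    let C : ℕ → ℕ := fun z => K (Nat.pair (A1 z) (A2 z))
    have hC : RecT O C := RecT.c hK (RecT.pair hA1 hA2)
    have hCz : ∀ z, C z = 0 ↔ ∃ u v, ev (jl a (T (D z.unpair.1 z.unpair.2.unpair.1)))
        z.unpair.2.unpair.2.unpair.2 = some u ∧ ev (jl a (T (D z.unpair.1
        z.unpair.2.unpair.2.unpair.1))) z.unpair.2.unpair.2.unpair.2 = some v ∧ u ≠ v := by
      intro z
      simp only [C, K, A1, A2, Nat.unpair_pair]
      cases h1 : ev (jl a (T (D z.unpair.1 z.unpair.2.unpair.1))) z.unpair.2.unpair.2.unpair.2 with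
      | none => simp
      | some u =>
        cases h2 : ev (jl a (T (D z.unpair.1 z.unpair.2.unpair.2.unpair.1)))
          z.unpair.2.unpair.2.unpair.2 with
        | none => simp
        | some v => simp
    have hex : ∀ q, ∃ t, C (Nat.pair q t) = 0 := by
      intro q
      obtain ⟨i, j, x, u, v, h1, h2, h3⟩ := hB q
      refine ⟨Nat.pair i (Nat.pair j x), ?_⟩
      rw [hCz]
      refine ⟨u, v, ?_, ?_, h3⟩
      · simpa using h1
      · simpa using h2
    have hF := RecT.find hC hex
    have hFs : ∀ q, C (Nat.pair q (Nat.find (hex q))) = 0 := fun q => Nat.find_spec (hex q)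
    -- the two functions
    have hL : RecT O (fun q => D q (Nat.find (hex q)).unpair.1) := by
      have := hD.comp (RecT.pair (RecT.id' (O := O)) (RecT.u1 hF))
      refine Nat.RecursiveIn.of_eq this ?_
      intro n; simp
    have hR : RecT O (fun q => D q (Nat.find (hex q)).unpair.2.unpair.1) := by
      have := hD.comp (RecT.pair (RecT.id' (O := O)) (RecT.u1 (RecT.u2 hF)))
      refine Nat.RecursiveIn.of_eq this ?_
      intro n; simp
    obtain ⟨s, hs, s0, sl, sr⟩ := heap hL hR
    have hval : ∀ n, ∃ u v, ev (jl a (T (s 0 (2 * n + 1)))) (Nat.find (hex (s 0 n))).unpair.2.unpair.2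
        = some u ∧ ev (jl a (T (s 0 (2 * n + 2)))) (Nat.find (hex (s 0 n))).unpair.2.unpair.2
        = some v ∧ u ≠ v := by
      intro n
      have h1 := (hCz _).1 (hFs (s 0 n))
      rw [sl, sr]
      simpa using h1
    have hsub : ∀ q i, T q <+: T (D q i) := by
      intro q i
      have := (hT.shift hD hl hr q).root i
      simpa [h0] using this
    refine ⟨s 0, ⟨?_, ?_, ?_, ?_⟩, ?_, Or.inr ?_⟩
    · refine hT.rcc ?_
      have := hs.comp (RecT.pair (RecT.const 0) RecT.id')
      refine Nat.RecursiveIn.of_eq this ?_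
      intro n; simp
    · intro n
      simp only [sl]
      exact hsub _ _
    · intro n
      simp only [sr]
      exact hsub _ _
    · intro n
      obtain ⟨u, v, h1, h2, h3⟩ := hval n
      constructor
      · intro hp
        have := hev.2 _ _ _ _ (jl_prefix a hp) h1
        rw [this] at h2
        exact h3 (by simpa using h2)
      · intro hp
        have := hev.2 _ _ _ _ (jl_prefix a hp) h2
        rw [this] at h1
        exact h3 (by simpa using h1.symm)
    · rw [s0]
    · intro n
      obtain ⟨u, v, h1, h2, h3⟩ := hval n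
      exact ⟨_, u, v, h1, h2, h3⟩

theorem p_dg : P_DG := by
  intro a T f hT
  obtain ⟨D, hD, h0, hl, hr⟩ := shifts {(a : ℕ →. ℕ)}
  have key : ∀ c, (T 0).length < (T c).length → T 0 <+: T c → T c ≠ pre f (T c).length →
      ∃ s : ℕ → ℕ, PT a (fun n => T (s n)) ∧ T 0 <+: T (s 0) ∧ (T 0).length < (T (s 0)).length ∧
      ¬ Br (fun n => T (s n)) f := by
    intro c hc1 hc2 hc3
    refine ⟨D c, hT.shift hD hl hr c, by rw [h0]; exact hc2, by rw [h0]; exact hc1, ?_⟩
    intro hbr
    obtain ⟨n, hn1, hn2⟩ := hbr (T c).length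
    simp only at hn1 hn2
    have h1 : T c <+: T (D c n) := by
      have := (hT.shift hD hl hr c).root n
      simpa [h0] using this
    rw [hn2] at h1
    apply hc3
    have h2 : pre f (T c).length <+: pre f (T (D c n)).length := pre_prefix f hn1
    rcases List.prefix_or_prefix_of_prefix h1 h2 with h3 | h3
    · exact h3.eq_of_length (by simp)
    · exact (h3.eq_of_length (by simp)).symm
  by_cases h : T 1 = pre f (T 1).length
  · refine key 2 (hT.len_rt 0) (hT.rt 0) ?_
    intro h2
    have hinc := hT.inc 0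
    simp only [Nat.mul_zero, Nat.zero_add] at hinc
    rcases le_total (T 1).length (T 2).length with hle | hle
    · apply hinc.1
      rw [h, h2]
      have := pre_prefix f hle
      simpa using this
    · apply hinc.2
      rw [h, h2]
      have := pre_prefix f hle
      simpa using this
  · exact key 1 (hT.len_lf 0) (hT.lf 0) h

end Pool.Agent.W2helper89.MC
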