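import Mathlib
import Pool.Agent.Helper743.Oracle
import Pool.Agent.H246.Basic
import Pool.Agent.Q203.TD.Cone
import Pool.Agent.Helper425.PA.Order

/-!
Project MC (problem MP_6072c5_lc): the degrees of a COUNTABLE model of PA have a cone of minimal
covers.  Statements of the pieces.

Idea.  Let `x : ℕ → M` enumerate the countable model `M`.  To `B ⊆ M` attach the real `sh x B`
(which `M`-finite sets are contained in `B`, in the complement of `B`).  Let the real `e` decide all
first order relations of `M` (`Full x e`).  Above a set which enumerates the graph `Px x` and the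
graph of `e`, `M`-reducibility is Turing reducibility of the reals `join (sh x B) e`
(`P_DOWN`, `P_UP`), and every real `a ≥ e` is realized (`P_COD`).  The cone of minimal covers in the
Turing degrees (`P_CONE`) comes from Borel determinacy (`Q203.TD.cone`) and from the relativized
theorem of Spector (`P_SPEC`).
-/

set_option autoImplicit false

universe u

namespace Pool.Agent.W2helper89.MC

open Pool.Agent.Helper743 (TR RecT join pre)
open Pool.Agent.Helper425.PA

/-! ### classical part -/

/-- `b` is a minimal cover of `a` (Turing reducibility between functions `ℕ → ℕ`) -/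
def MinCov (a b : ℕ → ℕ) : Prop :=
  TR a b ∧ ¬ TR b a ∧ ∀ d, TR a d → TR d b → TR d a ∨ TR b d

/-- (SPEC) Spector's theorem, relativized: every function has a minimal cover.
Proof: `b = join a g`, `g` a common branch of a decreasing sequence of perfect trees computable
in `a`, each of which is, for the `e`-th monotone functional, splitting or non-splitting. -/
def P_SPEC : Prop := ∀ a : ℕ → ℕ, ∃ b, MinCov a b

/-- (CONE) from Spector and Borel determinacy (`Q203.TD.cone` with `ι = Fin 4 ⊕ {ev // IsFn ev}`,
the basic functions `lf`, `rt`, `pl true`, `pl false` and the total extensions of the functionals).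
The set of all `b` with `∃ a, TR e a ∧ MinCov a b` is Borel, invariant and cofinal. -/
def P_CONE : Prop := P_SPEC → ∀ e : ℕ → ℕ, ∃ c, TR e c ∧
  ∀ b, TR c b → ∃ a, TR e a ∧ MinCov a b

/-! ### the model -/

section Mside

variable {M : Type u} [CommSemiring M] [LinearOrder M]

/-- the set `S` is c.e. in the set `B`, in the sense of `M` (positive information) -/
def CEin (B S : Set M) : Prop :=
  ∃ W : M → M → M → Prop, Sigma1 (fun v : ℕ → M => W (v 0) (v 1) (v 2)) ∧
    ∀ y, y ∈ S ↔ ∃ H₀ H₁ : M, El H₀ ⊆ B ∧ El H₁ ⊆ Bᶜ ∧ W y H₀ H₁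

variable (M) in
/-- the graph of `f : ℕ → ℕ` as a subset of `M` -/
def Gr (f : ℕ → ℕ) : Set M := {p | ∃ n : ℕ, p = pr (n : M) (f n : M)}

/-- the graph of an enumeration `x : ℕ → M` -/
def Px (x : ℕ → M) : Set M := {p | ∃ n : ℕ, p = pr (n : M) (x n)}

open Classical in
/-- the real attached to `B ⊆ M` -/
noncomputable def sh (x : ℕ → M) (B : Set M) (k : ℕ) : ℕ :=
  if Even k then (if El (x (k / 2)) ⊆ B then 1 else 0)
  else (if El (x (k / 2)) ⊆ Bᶜ then 1 else 0)

/-- the assignment coded by `k` -/
def asg (x : ℕ → M) (k : ℕ) : ℕ → M := fun i =>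
  x (((Encodable.decode k : Option (List ℕ)).getD []).getD i 0)

open Classical in
/-- the real `e` decides all first order relations of `M` -/
def Full (x : ℕ → M) (e : ℕ → ℕ) : Prop :=
  ∀ P : (ℕ → M) → Prop, Arith P →
    RecT {(e : ℕ →. ℕ)} (fun k => if P (asg x k) then 1 else 0)

end Mside

/-- (TRANS) transitivity -/
def P_TRANS : Prop := ∀ (M : Type u) [CommSemiring M] [LinearOrder M] [PeanoModel M]
  (C B S : Set M), CEin C S → TRed C B → CEin B S

/-- (FULL) there is a real deciding all first order relations (countable syntax) -/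
def P_FULL : Prop := ∀ (M : Type u) [CommSemiring M] [LinearOrder M] [PeanoModel M]
  (x : ℕ → M), Function.Surjective x → ∃ e : ℕ → ℕ, Full x e

/-- (SIM) `M`-reductions simulate Turing reductions: if the graph of `g` is c.e. in `B` and
`f ≤_T g` then the graph of `f` is c.e. in `B`.  Proof: by induction on `Nat.RecursiveIn {g}`,
the relations on `ℕ` which are c.e. in `B` (evaluated at standard arguments, with certificates for
standardness of the witnesses, which come from the graph of `g`) contain `+, *, <`, the graph of `g`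
and are closed under and, or, exists over `ℕ`, bounded forall (`Sigma1.ball'`); use `Nat.beta` for
primitive recursion. -/
def P_SIM : Prop := ∀ (M : Type u) [CommSemiring M] [LinearOrder M] [PeanoModel M]
  (B : Set M) (f g : ℕ → ℕ), TR f g → CEin B (Gr M g) → CEin B (Gr M f)

/-- (DOWN) use `Pool.Agent.Helper743.cert` -/
def P_DOWN : Prop := ∀ (M : Type u) [CommSemiring M] [LinearOrder M] [PeanoModel M]
  (x : ℕ → M), Function.Surjective x → ∀ e : ℕ → ℕ, Full x e →
  ∀ A B : Set M, TRed A B → TR (sh x A) (join (sh x B) e)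

/-- (GRAPH) use `Pool.Agent.Helper743.cert` -/
def P_GRAPH : Prop := ∀ (M : Type u) [CommSemiring M] [LinearOrder M] [PeanoModel M]
  (x : ℕ → M), Function.Surjective x → ∀ e : ℕ → ℕ, Full x e →
  ∀ (B : Set M) (f : ℕ → ℕ), CEin B (Gr M f) → TR f (join (sh x B) e)

/-- (UP) from SIM with `g = join (sh x B) e`: first the graph of `g` is c.e. in `B`. -/
def P_UP : Prop := P_SIM.{u} → ∀ (M : Type u) [CommSemiring M] [LinearOrder M] [PeanoModel M]
  (x : ℕ → M), Function.Surjective x → ∀ (e : ℕ → ℕ) (A B : Set M),
  CEin B (Px x) → CEin B (Gr M e) → TR (sh x A) (join (sh x B) e) → TRed A B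

/-- (COD) coding: `A = {e_i : i ∈ ℕ}`, `e_0 = pr (x 0) (c 0)`,
`e_(i+1) = pr (e_i + x (i+1) + 1) (c (i+1))`, `c i = pr i (pr (x i) (a i))`; the `e_i` are strictly
increasing and `x i ≤ e_i`, so `El (x n) ∩ A ⊆ {e_0, ..., e_n}`. -/
def P_COD : Prop := ∀ (M : Type u) [CommSemiring M] [LinearOrder M] [PeanoModel M]
  (x : ℕ → M), Function.Surjective x → ∀ e : ℕ → ℕ, Full x e →
  ∀ a : ℕ → ℕ, TR e a → ∃ A : Set M, CEin A (Px x) ∧ CEin A (Gr M a) ∧ TR (sh x A) a

end Pool.Agent.W2helper89.MC
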