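import Pool.Agent.W2helper89.MC.SStm

/-!
Project MC: recursion-theoretic tools with parameters.
-/

set_option autoImplicit false

namespace Pool.Agent.W2helper89.MC

open Pool.Agent.Helper743
open Pool.Agent.H246 (IsFn Hal)

variable {O : Set (ℕ →. ℕ)}

/-- the list coded by a number -/
def dl (c : ℕ) : List ℕ := (Encodable.decode (α := List ℕ) c).getD []

@[simp] lemma dl_encode (l : List ℕ) : dl (Encodable.encode l) = l := by simp [dl]

lemma comp_dl : Computable dl :=
  Computable.option_getD Computable.decode (Computable.const [])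

lemma RecT.c {f g : ℕ → ℕ} (hf : Computable f) (hg : RecT O g) : RecT O (fun n => f (g n)) :=
  (Computable.recT (O := O) hf).comp hg

lemma RecT.u1 {g : ℕ → ℕ} (hg : RecT O g) : RecT O (fun n => (g n).unpair.1) :=
  RecT.c (Computable.fst.comp Computable.unpair) hg

lemma RecT.u2 {g : ℕ → ℕ} (hg : RecT O g) : RecT O (fun n => (g n).unpair.2) :=
  RecT.c (Computable.snd.comp Computable.unpair) hg

lemma RecT.id' : RecT O (fun n => n) := Computable.recT Computable.id

lemma RecT.const (k : ℕ) : RecT O (fun _ => k) := Computable.recT (Computable.const k)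

/-- append -/
lemma RecT.app {f g : ℕ → ℕ} (hf : RecT O f) (hg : RecT O g) :
    RecT O (fun n => Encodable.encode (dl (f n) ++ [g n])) := by
  have h1 : Computable (fun z : ℕ => Encodable.encode (dl z.unpair.1 ++ [z.unpair.2])) :=
    Computable.encode.comp (Computable.list_concat.comp
      (comp_dl.comp (Computable.fst.comp Computable.unpair))
      (Computable.snd.comp Computable.unpair))
  have h2 := RecT.c h1 (RecT.pair hf hg)
  refine Nat.RecursiveIn.of_eq h2 ?_
  intro n
  simp

/-- element of a list -/
lemma RecT.get {f g : ℕ → ℕ} (hf : RecT O f) (hg : RecT O g) :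
    RecT O (fun n => (dl (f n)).getD (g n) 0) := by
  have h1 : Computable (fun z : ℕ => (dl z.unpair.1)[z.unpair.2]?.getD 0) :=
    Computable.option_getD (Computable.list_getElem?.comp
      (comp_dl.comp (Computable.fst.comp Computable.unpair))
      (Computable.snd.comp Computable.unpair)) (Computable.const 0)
  have h2 := RecT.c h1 (RecT.pair hf hg)
  refine Nat.RecursiveIn.of_eq h2 ?_
  intro n
  simp

lemma RecT.len {f : ℕ → ℕ} (hf : RecT O f) : RecT O (fun n => (dl (f n)).length) :=
  RecT.c (Computable.list_length.comp comp_dl) hf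

/-- prefixes with a parameter -/
lemma recT_pre2 {G : ℕ → ℕ → ℕ} (hG : RecT O (fun z => G z.unpair.1 z.unpair.2)) :
    RecT O (fun z => Encodable.encode (pre (G z.unpair.1) z.unpair.2)) := by
  have h2 : RecT O (fun z => Encodable.encode (dl z.unpair.2.unpair.2 ++
      [G z.unpair.1 z.unpair.2.unpair.1])) := by
    refine RecT.app (RecT.u2 (RecT.u2 RecT.id')) ?_
    have := hG.comp (RecT.pair (RecT.u1 (O := O) RecT.id') (RecT.u1 (RecT.u2 RecT.id')))
    refine Nat.RecursiveIn.of_eq this ?_
    intro n; simp
  have h3 := RecT.prec (RecT.const (O := O) (Encodable.encode ([] : List ℕ))) h2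
  refine Nat.RecursiveIn.of_eq h3 ?_
  intro z
  congr 1
  simp only [Nat.unpair_pair]
  generalize z.unpair.2 = n
  induction n with
  | zero => rfl
  | succ n ih =>
    change Encodable.encode (dl (Nat.rec (Encodable.encode ([] : List ℕ)) (fun y ih =>
        Encodable.encode (dl ih ++ [G z.unpair.1 y])) n) ++ [G z.unpair.1 n]) = _
    rw [ih]
    simp [pre_succ]

/-- heap recursion with a parameter -/
lemma heap {L R : ℕ → ℕ} (hL : RecT O L) (hR : RecT O R) :
    ∃ s : ℕ → ℕ → ℕ, RecT O (fun z => s z.unpair.1 z.unpair.2) ∧ (∀ q, s q 0 = q) ∧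
      (∀ q n, s q (2 * n + 1) = L (s q n)) ∧ (∀ q n, s q (2 * n + 2) = R (s q n)) := by
  -- the value at `n + 1` from the list of the values at `0..n`
  let st : ℕ → ℕ → ℕ := fun n c =>
    if n % 2 = 0 then L ((dl c).getD (n / 2) 0) else R ((dl c).getD (n / 2) 0)
  have hst : RecT O (fun z => st z.unpair.1 z.unpair.2) := by
    have e1 : RecT O (fun z => (dl z.unpair.2).getD (z.unpair.1 / 2) 0) := by
      refine RecT.get (RecT.u2 RecT.id') ?_
      exact RecT.c (f := fun n => n / 2) ((Primrec.nat_div.comp Primrec.id
        (Primrec.const 2)).to_comp) (RecT.u1 RecT.id')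
    have e2 : RecT O (fun z => z.unpair.1 % 2) :=
      RecT.c (f := fun n => n % 2) ((Primrec.nat_mod.comp Primrec.id
        (Primrec.const 2)).to_comp) (RecT.u1 RecT.id')
    exact Pool.Agent.H246.RecT.ite_eq e2 (hL.comp e1) (hR.comp e1) 0
  let tb : ℕ → ℕ → ℕ := fun q n => Nat.rec (Encodable.encode [q])
    (fun y ih => Encodable.encode (dl ih ++ [st y ih])) n
  have htb : RecT O (fun z => tb z.unpair.1 z.unpair.2) := by
    have h0 : RecT O (fun q => Encodable.encode [q]) := by
      have := RecT.app (RecT.const (O := O) (Encodable.encode ([] : List ℕ))) (RecT.id' (O := O))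
      refine Nat.RecursiveIn.of_eq this ?_
      intro n
      rw [dl_encode]; rfl
    have h2 : RecT O (fun z => Encodable.encode (dl z.unpair.2.unpair.2 ++
        [st z.unpair.2.unpair.1 z.unpair.2.unpair.2])) := by
      refine RecT.app (RecT.u2 (RecT.u2 RecT.id')) ?_
      exact hst.comp (RecT.u2 RecT.id')
    have h3 := RecT.prec h0 h2
    refine Nat.RecursiveIn.of_eq h3 ?_
    intro z
    simp [tb]
  have tb_succ : ∀ q n, dl (tb q (n + 1)) = dl (tb q n) ++ [st n (tb q n)] := by
    intro q n
    change dl (Encodable.encode _) = _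
    rw [dl_encode]
  have tb_zero : ∀ q, dl (tb q 0) = [q] := by
    intro q
    change dl (Encodable.encode _) = _
    rw [dl_encode]
  have hlen : ∀ q n, (dl (tb q n)).length = n + 1 := by
    intro q n
    induction n with
    | zero => rw [tb_zero]; rfl
    | succ n ih => rw [tb_succ, List.length_append, ih]; rfl
  let s : ℕ → ℕ → ℕ := fun q n => (dl (tb q n)).getD n 0
  have hstab : ∀ q n k, k ≤ n → (dl (tb q n)).getD k 0 = s q k := by
    intro q n k hk
    induction n with
    | zero =>
      have : k = 0 := by omega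
      subst this; rfl
    | succ n ih =>
      rcases Nat.lt_or_ge k (n + 1) with h | h
      · rw [tb_succ, List.getD_append _ _ _ _ (by rw [hlen]; exact h)]
        exact ih (by omega)
      · have : k = n + 1 := by omega
        subst this; rfl
  have s_succ : ∀ q n, s q (n + 1) = st n (tb q n) := by
    intro q n
    change (dl (tb q (n + 1))).getD (n + 1) 0 = _
    rw [tb_succ, List.getD_append_right _ _ _ _ (by rw [hlen]), hlen]
    simp
  refine ⟨s, ?_, ?_, ?_, ?_⟩
  · exact RecT.get htb (RecT.u2 RecT.id')
  · intro q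
    change (dl (tb q 0)).getD 0 0 = q
    rw [tb_zero]; rfl
  · intro q n
    rw [s_succ]
    change (if (2 * n) % 2 = 0 then _ else _) = _
    rw [if_pos (by omega), hstab q (2 * n) (2 * n / 2) (by omega)]
    congr 2
    omega
  · intro q n
    refine (s_succ q (2 * n + 1)).trans ?_
    change (if (2 * n + 1) % 2 = 0 then _ else _) = _
    rw [if_neg (by omega), hstab q (2 * n + 1) ((2 * n + 1) / 2) (by omega)]
    congr 2
    omega

/-- evaluation of a functional on computable data -/
lemma recT_ev {ev : List ℕ → ℕ → Option ℕ} (hev : Computable₂ ev) {S X : ℕ → ℕ}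
    (hS : RecT O S) (hX : RecT O X) :
    RecT O (fun n => Encodable.encode (ev (dl (S n)) (X n))) := by
  have h1 : Computable (fun z : ℕ => Encodable.encode (ev (dl z.unpair.1) z.unpair.2)) :=
    Computable.encode.comp (hev.comp (comp_dl.comp (Computable.fst.comp Computable.unpair))
      (Computable.snd.comp Computable.unpair))
  have h2 := RecT.c h1 (RecT.pair hS hX)
  refine Nat.RecursiveIn.of_eq h2 ?_
  intro n
  simp

/-- the finite oracles `jl a σ` -/
lemma recT_jl {a : ℕ → ℕ} (ha : RecT O a) {S : ℕ → ℕ} (hS : RecT O S) :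
    RecT O (fun n => Encodable.encode (jl a (dl (S n)))) := by
  have hG : RecT O (fun z => (fun c y => join a (fun i => (dl c).getD i 0) y)
      z.unpair.1 z.unpair.2) := by
    refine RecT.pair (ha.comp (RecT.u2 RecT.id')) ?_
    exact RecT.get (RecT.u1 RecT.id') (RecT.u2 RecT.id')
  have h2 := (recT_pre2 (G := fun c => join a (fun i => (dl c).getD i 0)) hG).comp
    (RecT.pair hS (RecT.len hS))
  refine Nat.RecursiveIn.of_eq h2 ?_
  intro n
  simp [jl]

lemma jl_prefix (a : ℕ → ℕ) {σ τ : List ℕ} (h : σ <+: τ) : jl a σ <+: jl a τ := by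
  have h1 : jl a σ = pre (join a (fun i => τ.getD i 0)) σ.length := by
    unfold jl
    apply List.ext_getElem
    · simp
    · intro i h1 h2
      simp only [pre_length] at h1
      obtain ⟨ρ, rfl⟩ := h
      simp only [pre, List.getElem_map, List.getElem_range, join]
      rw [List.getD_append _ _ _ _ h1]
  rw [h1]
  exact pre_prefix _ h.length_le

lemma jl_pre (a g : ℕ → ℕ) (n : ℕ) : jl a (pre g n) = pre (join a g) n := by
  unfold jl
  apply List.ext_getElem
  · simp
  · intro i h1 h2
    simp only [pre_length] at h1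
    simp only [pre, List.getElem_map, List.getElem_range, join]
    congr 1
    simp [List.getD_eq_getElem?_getD, h1]

end Pool.Agent.W2helper89.MC
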